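import Pool.Agent.Q267.S397

/-!
# The four identities for `S_p` at twelfth roots of unity fail for `p = 397` (MP_8a3680_nt)

For `p = 397` the least positive solution of `3 x² + 1 = p y²` is `(23, 2)`.  The conjectured
value of `|S_p(exp(± 2 π i / 12))|` is `|23 √3 - 2 √397| = 0.01254…`, but the true value is
`0.00000197…` (the cube of the former; the class number of `ℚ(√(3 · 397))` is `6`).  Similarly
`|S_p(exp(± 2 π i · 5 / 12))| > 100 > 23 √3 + 2 √397`.  The values are computed with rigorous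
error bounds in the imported file.
-/

set_option autoImplicit false

namespace Pool.Agent.Results.MP_8a3680_nt.FailsAt397

open Complex

/-- `S_p(x) = ∏_{k = 1}^{(p - 1) / 2} (x - exp(2 π i k² / p))`. -/
noncomputable def S (p : ℕ) (x : ℂ) : ℂ :=
  ∏ k ∈ Finset.Icc 1 ((p - 1) / 2), (x - exp (2 * Real.pi * I * (k : ℂ) ^ 2 / p))

/-- `N_ε(p)`, the number of `k` with `1 ≤ k < p / 4` and Legendre symbol `(k / p) = ε`. -/
def N (ε : ℤ) (p : ℕ) : ℕ :=
  ((Finset.Icc 1 p).filter fun k : ℕ => 4 * k < p ∧ jacobiSym (k : ℤ) p = ε).card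

/-- `(x, y)` is the least solution of `3 x² + 1 = p y²` in positive integers. -/
def IsLeastSolution (p x y : ℕ) : Prop :=
  0 < x ∧ 0 < y ∧ 3 * x ^ 2 + 1 = p * y ^ 2 ∧
    ∀ x' y' : ℕ, 0 < x' → 0 < y' → 3 * x' ^ 2 + 1 = p * y' ^ 2 → x ≤ x' ∧ y ≤ y'

lemma S_397 (z : ℂ) : S 397 z = Q267.S397.P z := by
  unfold S Q267.S397.P
  have h : (Finset.Icc 1 ((397 - 1) / 2) : Finset ℕ) = Finset.Ico 1 199 := by decide
  rw [h, Finset.prod_Ico_eq_prod_range]
  refine Finset.prod_congr (by norm_num) fun j _ => ?_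
  congr 1
  unfold Q267.S397.ζ
  rw [← Complex.exp_nat_mul]
  congr 1
  push_cast
  ring

lemma pt_one : exp (2 * Real.pi * I / 12) = Q267.S397.pt 1 1 := by
  have h : (2 * Real.pi * I / 12 : ℂ) = ((Real.pi / 6 : ℝ) : ℂ) * I := by push_cast; ring
  rw [h, exp_mul_I, ← ofReal_cos, ← ofReal_sin, Real.cos_pi_div_six, Real.sin_pi_div_six]
  unfold Q267.S397.pt; push_cast; ring

lemma pt_two : exp (-(2 * Real.pi * I / 12)) = Q267.S397.pt 1 (-1) := by
  have h : (-(2 * Real.pi * I / 12) : ℂ) = ((-(Real.pi / 6) : ℝ) : ℂ) * I := by push_cast; ring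
  rw [h, exp_mul_I, ← ofReal_cos, ← ofReal_sin, Real.cos_neg, Real.sin_neg, Real.cos_pi_div_six,
    Real.sin_pi_div_six]
  unfold Q267.S397.pt; push_cast; ring

lemma pt_three : exp (2 * Real.pi * I * 5 / 12) = Q267.S397.pt (-1) 1 := by
  have h : (2 * Real.pi * I * 5 / 12 : ℂ) = ((Real.pi - Real.pi / 6 : ℝ) : ℂ) * I := by
    push_cast; ring
  rw [h, exp_mul_I, ← ofReal_cos, ← ofReal_sin, Real.cos_pi_sub, Real.sin_pi_sub,
    Real.cos_pi_div_six, Real.sin_pi_div_six]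
  unfold Q267.S397.pt; push_cast; ring

lemma pt_four : exp (-(2 * Real.pi * I * 5 / 12)) = Q267.S397.pt (-1) (-1) := by
  have h : (-(2 * Real.pi * I * 5 / 12) : ℂ) = ((-(Real.pi - Real.pi / 6) : ℝ) : ℂ) * I := by
    push_cast; ring
  rw [h, exp_mul_I, ← ofReal_cos, ← ofReal_sin, Real.cos_neg, Real.sin_neg, Real.cos_pi_sub,
    Real.sin_pi_sub, Real.cos_pi_div_six, Real.sin_pi_div_six]
  unfold Q267.S397.pt; push_cast; ring

lemma sqrt_bounds : (1.732 : ℝ) < √3 ∧ √3 < 1.73206 ∧ (19.9248 : ℝ) < √397 ∧ √397 < 20 := by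
  refine ⟨?_, ?_, ?_, ?_⟩
  · apply Real.lt_sqrt_of_sq_lt; norm_num
  · rw [Real.sqrt_lt' (by norm_num)]; norm_num
  · apply Real.lt_sqrt_of_sq_lt; norm_num
  · rw [Real.sqrt_lt' (by norm_num)]; norm_num

lemma gap : (0.0125 : ℝ) < 2 * √397 - 23 * √3 := by
  have h1 : √3 < 1.7320509 := by rw [Real.sqrt_lt' (by norm_num)]; norm_num
  have h2 : (19.924858 : ℝ) < √397 := by apply Real.lt_sqrt_of_sq_lt; norm_num
  linarith

lemma norm_unit (n : ℕ) (u : ℂ) (hu : ‖u‖ = 1) (r : ℝ) :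
    ‖u * (I * (-1) ^ n * (r : ℂ))‖ = |r| := by
  rw [norm_mul, norm_mul, norm_mul, hu, norm_I, norm_pow, norm_neg, norm_one, one_pow,
    Complex.norm_real, Real.norm_eq_abs]
  ring

/-- There is a prime `p ≡ 13 (mod 24)`, namely `p = 397`, for which all four conjectured
identities fail, even if the right-hand sides are multiplied by an arbitrary complex number `u` of
absolute value `1` (so they fail for every choice of the signs). -/
theorem result : ∃ p x y : ℕ, p.Prime ∧ p % 24 = 13 ∧ IsLeastSolution p x y ∧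
    ∀ u : ℂ, ‖u‖ = 1 →
      S p (exp (2 * Real.pi * I / 12)) ≠
        u * (I * (-1) ^ ((p - 5) / 8 + N (-1) p) * (x * √3 - y * √p : ℝ)) ∧
      S p (exp (-(2 * Real.pi * I / 12))) ≠
        u * (I * (-1) ^ ((p - 5) / 8 + N 1 p) * (x * √3 - y * √p : ℝ)) ∧
      S p (exp (2 * Real.pi * I * 5 / 12)) ≠
        u * (I * (-1) ^ ((p - 5) / 8 + N 1 p) * (x * √3 + y * √p : ℝ)) ∧
      S p (exp (-(2 * Real.pi * I * 5 / 12))) ≠
        u * (I * (-1) ^ ((p - 5) / 8 + N (-1) p) * (x * √3 + y * √p : ℝ)) := by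
  refine ⟨397, 23, 2, by norm_num, by norm_num, ⟨by norm_num, by norm_num, by norm_num, ?_⟩, ?_⟩
  · intro x y _ hy h
    have hy2 : 2 ≤ y := by
      by_contra hlt
      have hy1 : y = 1 := by omega
      subst hy1
      have hx : x < 12 := by nlinarith
      interval_cases x <;> omega
    refine ⟨?_, hy2⟩
    nlinarith
  · intro u hu
    obtain ⟨b1, b2, b3, b4⟩ := sqrt_bounds
    have g := gap
    have e1 : |((23 : ℕ) : ℝ) * √3 - ((2 : ℕ) : ℝ) * √((397 : ℕ) : ℝ)| = 2 * √397 - 23 * √3 := by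
      push_cast
      rw [abs_sub_comm, abs_of_pos (by linarith)]
    have e2 : |((23 : ℕ) : ℝ) * √3 + ((2 : ℕ) : ℝ) * √((397 : ℕ) : ℝ)| = 23 * √3 + 2 * √397 := by
      push_cast
      rw [abs_of_pos (by linarith)]
    refine ⟨?_, ?_, ?_, ?_⟩ <;> intro h <;> have h' := congrArg norm h
    · rw [norm_unit _ u hu, e1, S_397, pt_one] at h'
      linarith [Q267.S397.small 1 (Or.inl rfl)]
    · rw [norm_unit _ u hu, e1, S_397, pt_two] at h'
      linarith [Q267.S397.small (-1) (Or.inr rfl)]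
    · rw [norm_unit _ u hu, e2, S_397, pt_three] at h'
      linarith [Q267.S397.large 1 (Or.inl rfl)]
    · rw [norm_unit _ u hu, e2, S_397, pt_four] at h'
      linarith [Q267.S397.large (-1) (Or.inr rfl)]

end Pool.Agent.Results.MP_8a3680_nt.FailsAt397
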